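import Mathlib

set_option autoImplicit false

namespace Pool.Agent.Lib.MP_86beeb_co

def Ed (t s : ℝ) : Prop := (-1 ≤ s ∧ s < 1) ∨ t ≤ s

def Hom (t : ℝ) (K : ℕ) (x y : ℕ → ℝ) : Prop :=
  ∀ θ : ℝ, (θ = -1 ∨ θ = 1 ∨ θ = t) → ∀ a b a' b' : ℕ, a < b → b < K → a' < b' → b' < K →
    (x a + y b < θ ↔ x a' + y b' < θ) ∧ (x b + y a < θ ↔ x b' + y a' < θ)

def Inc (t : ℝ) (K : ℕ) (x y : ℕ → ℝ) : Prop :=
  ∀ a b : ℕ, a < b → b < K → Ed t (x a + y b) ∧ ¬ Ed t (x b + y a)

def Dec (t : ℝ) (K : ℕ) (x y : ℕ → ℝ) : Prop :=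
  ∀ a b : ℕ, a < b → b < K → ¬ Ed t (x a + y b) ∧ Ed t (x b + y a)

def At (θ : ℝ) (K : ℕ) (x y : ℕ → ℝ) : Prop :=
  ∀ a b : ℕ, a < b → b < K → θ ≤ x a + y b ∧ x b + y a < θ

def Rev (θ : ℝ) (K : ℕ) (x y : ℕ → ℝ) : Prop :=
  ∀ a b : ℕ, a < b → b < K → x a + y b < θ ∧ θ ≤ x b + y a

variable {t : ℝ} {K : ℕ}

theorem Hom.at {x y : ℕ → ℝ} (h : Hom t K x y) (hK : 2 ≤ K) {θ : ℝ}
    (hθ : θ = -1 ∨ θ = 1 ∨ θ = t) (h1 : θ ≤ x 0 + y 1) (h2 : x 1 + y 0 < θ) : At θ K x y := by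
  intro a b hab hb
  have := h θ hθ a b 0 1 hab hb (by norm_num) (by omega)
  exact ⟨not_lt.1 (fun hh => absurd (this.1.1 hh) (not_lt.2 h1)), this.2.2 h2⟩

theorem Hom.rev {x y : ℕ → ℝ} (h : Hom t K x y) (hK : 2 ≤ K) {θ : ℝ}
    (hθ : θ = -1 ∨ θ = 1 ∨ θ = t) (h1 : x 0 + y 1 < θ) (h2 : θ ≤ x 1 + y 0) : Rev θ K x y := by
  intro a b hab hb
  have := h θ hθ a b 0 1 hab hb (by norm_num) (by omega)
  exact ⟨this.1.2 h1, not_lt.1 (fun hh => absurd (this.2.1 hh) (not_lt.2 h2))⟩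

theorem inc_cases {x y : ℕ → ℝ} (ht : 1 < t) (hK : 2 ≤ K) (h : Hom t K x y) (hi : Inc t K x y) :
    At (-1) K x y ∨ At t K x y ∨ Rev 1 K x y := by
  obtain ⟨h1, h2⟩ := hi 0 1 (by norm_num) (by omega)
  unfold Ed at h1 h2
  push Not at h2
  by_cases c1 : x 1 + y 0 < -1
  · left
    refine h.at hK (Or.inl rfl) ?_ c1
    rcases h1 with h1 | h1 <;> linarith [h1]
  · have c2 := h2.1 (not_lt.1 c1)
    rcases h1 with h1 | h1
    · right; right
      exact h.rev hK (Or.inr (Or.inl rfl)) h1.2 c2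
    · right; left
      exact h.at hK (Or.inr (Or.inr rfl)) h1 h2.2

theorem dec_cases {x y : ℕ → ℝ} (ht : 1 < t) (hK : 2 ≤ K) (h : Hom t K x y) (hi : Dec t K x y) :
    At 1 K x y ∨ Rev (-1) K x y ∨ Rev t K x y := by
  obtain ⟨h2, h1⟩ := hi 0 1 (by norm_num) (by omega)
  unfold Ed at h1 h2
  push Not at h2
  by_cases c1 : x 0 + y 1 < -1
  · right; left
    refine h.rev hK (Or.inl rfl) c1 ?_
    rcases h1 with h1 | h1 <;> linarith [h1]
  · have c2 := h2.1 (not_lt.1 c1)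
    rcases h1 with h1 | h1
    · left
      exact h.at hK (Or.inr (Or.inl rfl)) c2 h1.2
    · right; right
      exact h.rev hK (Or.inr (Or.inr rfl)) h2.2 h1

theorem At.dir {x y : ℕ → ℝ} {θ : ℝ} (h : At θ K x y) (hK : 3 ≤ K) : y 0 < y 2 := by
  have h1 := (h 1 2 (by norm_num) (by omega)).1
  have h2 := (h 0 1 (by norm_num) (by omega)).2
  linarith

theorem Rev.dir {x y : ℕ → ℝ} {θ : ℝ} (h : Rev θ K x y) (hK : 3 ≤ K) : y 2 < y 0 := by
  have h1 := (h 1 2 (by norm_num) (by omega)).1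
  have h2 := (h 0 1 (by norm_num) (by omega)).2
  linarith

theorem between_false {x1 x3 y' : ℕ → ℝ} (hK : 6 ≤ K) (h : Hom t K x1 y') (hd : Dec t K x1 y')
    (ha : Ed t (x3 2 + y' 5))
    (hb : (x1 0 < x3 2 ∧ x3 2 < x1 4) ∨ (x1 4 < x3 2 ∧ x3 2 < x1 0)) : False := by
  have n0 := (hd 0 5 (by norm_num) (by omega)).1
  have n4 := (hd 4 5 (by norm_num) (by omega)).1
  have e1 := (h (-1) (Or.inl rfl) 0 5 4 5 (by norm_num) (by omega) (by norm_num) (by omega)).1
  unfold Ed at n0 n4 ha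
  push Not at n0 n4
  by_cases c : x1 0 + y' 5 < -1
  · have c' := e1.1 c
    rcases ha with ha | ha
    · rcases hb with hb | hb <;> linarith [ha.1, hb.1, hb.2]
    · rcases hb with hb | hb <;> linarith [n0.2, n4.2, hb.1, hb.2]
  · have c' : ¬ x1 4 + y' 5 < -1 := fun hh => c (e1.2 hh)
    have d0 := n0.1 (not_lt.1 c)
    have d4 := n4.1 (not_lt.1 c')
    rcases ha with ha | ha
    · rcases hb with hb | hb <;> linarith [ha.2, hb.1, hb.2]
    · rcases hb with hb | hb <;> linarith [n0.2, n4.2, hb.1, hb.2]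

theorem At.between {x1 x3 y : ℕ → ℝ} {θ : ℝ} (hK : 6 ≤ K) (h1 : At θ K x1 y) (h3 : At θ K x3 y) :
    x1 4 < x3 2 ∧ x3 2 < x1 0 := by
  have a1 := (h3 2 3 (by norm_num) (by omega)).1
  have a2 := (h1 3 4 (by norm_num) (by omega)).2
  have a3 := (h1 0 1 (by norm_num) (by omega)).1
  have a4 := (h3 1 2 (by norm_num) (by omega)).2
  constructor <;> linarith

theorem Rev.between {x1 x3 y : ℕ → ℝ} {θ : ℝ} (hK : 6 ≤ K) (h1 : Rev θ K x1 y)
    (h3 : Rev θ K x3 y) : x1 0 < x3 2 ∧ x3 2 < x1 4 := by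
  have a1 := (h3 2 3 (by norm_num) (by omega)).1
  have a2 := (h1 3 4 (by norm_num) (by omega)).2
  have a3 := (h1 0 1 (by norm_num) (by omega)).1
  have a4 := (h3 1 2 (by norm_num) (by omega)).2
  constructor <;> linarith

theorem gadget {x1 x2 x3 y y' : ℕ → ℝ} (ht : 1 < t) (hK : 6 ≤ K)
    (H1 : Hom t K x1 y) (H2 : Hom t K x2 y) (H3 : Hom t K x3 y) (H4 : Hom t K x1 y')
    (I1 : Inc t K x1 y) (D2 : Dec t K x2 y) (I3 : Inc t K x3 y) (D4 : Dec t K x1 y')
    (ha : Ed t (x3 2 + y' 5)) : At (-1) K x1 y ∧ At 1 K x2 y ∧ At t K x3 y := by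
  have c1 := inc_cases ht (by omega) H1 I1
  have c2 := dec_cases ht (by omega) H2 D2
  have c3 := inc_cases ht (by omega) H3 I3
  have hrev : y 2 < y 0 → False := by
    intro hy
    have r1 : Rev 1 K x1 y := by
      rcases c1 with c | c | c
      · linarith [c.dir (by omega)]
      · linarith [c.dir (by omega)]
      · exact c
    have r3 : Rev 1 K x3 y := by
      rcases c3 with c | c | c
      · linarith [c.dir (by omega)]
      · linarith [c.dir (by omega)]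
      · exact c
    exact between_false hK H4 D4 ha (Or.inl (r1.between hK r3))
  rcases c2 with c2 | c2 | c2
  · rcases c1 with c1 | c1 | c1
    · rcases c3 with c3 | c3 | c3
      · exact (between_false hK H4 D4 ha (Or.inr (c1.between hK c3))).elim
      · exact ⟨c1, c2, c3⟩
      · exact (hrev (c3.dir (by omega))).elim
    · rcases c3 with c3 | c3 | c3
      · exfalso
        have a1 := (c1 0 1 (by norm_num) (by omega)).1
        have a2 := (c3 1 2 (by norm_num) (by omega)).2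
        have a3 := (D4 0 5 (by norm_num) (by omega)).1
        apply a3
        right
        rcases ha with ha | ha <;> linarith [ha]
      · exact (between_false hK H4 D4 ha (Or.inr (c1.between hK c3))).elim
      · exact (hrev (c3.dir (by omega))).elim
    · exact (hrev (c1.dir (by omega))).elim
  · exact (hrev (c2.dir (by omega))).elim
  · exact (hrev (c2.dir (by omega))).elim

theorem At.step {x x' y : ℕ → ℝ} {θ θ' : ℝ} (h : At θ K x y) (h' : At θ' K x' y) (a : ℕ)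
    (ha : a + 2 < K) : x' (a + 2) - θ' < x a - θ := by
  have a1 := (h a (a + 1) (by omega) (by omega)).1
  have a2 := (h' (a + 1) (a + 2) (by omega) (by omega)).2
  linarith

def Normal (t : ℝ) (K M : ℕ) (X Y : ℕ → ℕ → ℕ → ℝ) : Prop :=
  ∀ i j, i + 1 < M → j + 1 < M →
    At (-1) K (X (i + 1) j) (Y i j) ∧ At 1 K (X i j) (Y i j) ∧ At t K (X i (j + 1)) (Y i j)

theorem Normal.lower {M : ℕ} {X Y : ℕ → ℕ → ℕ → ℝ} (h : Normal t K M X Y) (i j : ℕ)
    (hi : i + 1 < M) (hj : j + 1 < M) (a : ℕ) (ha : a + 2 * (i + j) < K) :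
    X 0 0 (a + 2 * (i + j)) - 2 * i + (t - 1) * j ≤ X i j a := by
  induction j generalizing a with
  | zero =>
    induction i generalizing a with
    | zero => simp
    | succ i ih =>
      obtain ⟨n1, n2, -⟩ := h i 0 (by omega) hj
      have s1 := n1.step n2 a (by omega)
      have s2 := ih (by omega) (a + 2) (by omega)
      have e : a + 2 + 2 * (i + 0) = a + 2 * (i + 1 + 0) := by ring
      rw [e] at s2
      push_cast at s2 ⊢
      linarith
  | succ j ih =>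
    obtain ⟨-, n2, n3⟩ := h i j hi (by omega)
    have s1 := n3.step n2 a (by omega)
    have s2 := ih (by omega) (a + 2) (by omega)
    have e : a + 2 + 2 * (i + j) = a + 2 * (i + (j + 1)) := by ring
    rw [e] at s2
    push_cast at s2 ⊢
    linarith

theorem Normal.upper {M : ℕ} {X Y : ℕ → ℕ → ℕ → ℝ} (h : Normal t K M X Y) (i j : ℕ)
    (hi : i + 1 < M) (hj : j + 1 < M) (a : ℕ) (ha : a + 2 * (i + j) < K) :
    X i j (a + 2 * (i + j)) ≤ X 0 0 a - 2 * i + (t - 1) * j := by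
  induction j with
  | zero =>
    induction i with
    | zero => simp
    | succ i ih =>
      obtain ⟨n1, n2, -⟩ := h i 0 (by omega) hj
      have s1 := n2.step n1 (a + 2 * (i + 0)) (by omega)
      have s2 := ih (by omega) (by omega)
      have e : a + 2 * (i + 0) + 2 = a + 2 * (i + 1 + 0) := by ring
      rw [e] at s1
      push_cast at s2 ⊢
      linarith
  | succ j ih =>
    obtain ⟨-, n2, n3⟩ := h i j hi (by omega)
    have s1 := n2.step n3 (a + 2 * (i + j)) (by omega)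
    have s2 := ih (by omega) (by omega)
    have e : a + 2 * (i + j) + 2 = a + 2 * (i + (j + 1)) := by ring
    rw [e] at s1
    push_cast at s2 ⊢
    linarith

end Pool.Agent.Lib.MP_86beeb_co
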