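import Mathlib
import Pool.Agent.Lib.MP_86beeb_co.Gadget
import Pool.Agent.Lib.helper64.Ramsey

set_option autoImplicit false

namespace Pool.Agent.Lib.MP_86beeb_co

def pos (t : ℝ) (i j : ℕ) : ℝ := -2 * i + (t - 1) * j

def Edges (t t' : ℝ) (K M : ℕ) (X Y : ℕ → ℕ → ℕ → ℝ) : Prop :=
  ∀ i j k l a b : ℕ, i < M → j < M → k < M → l < M → a < b → b < K →
    ∃ δ : ℝ, 0 < δ ∧ δ < 1 ∧ δ < t - 1 ∧
      (Ed t' (X i j a + Y k l b) ↔ Ed t (pos t i j + 1 - pos t k l + δ)) ∧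
      (Ed t' (X i j b + Y k l a) ↔ Ed t (pos t i j + 1 - pos t k l - δ))

variable {t t' : ℝ} {K M : ℕ} {X Y : ℕ → ℕ → ℕ → ℝ}

theorem Edges.dec (h : Edges t t' K M X Y) (i j : ℕ) (hi : i < M) (hj : j < M) :
    Dec t' K (X i j) (Y i j) := by
  intro a b hab hb
  obtain ⟨δ, d0, d1, d2, e1, e2⟩ := h i j i j a b hi hj hi hj hab hb
  rw [e1, e2]
  unfold Ed
  refine ⟨?_, Or.inl ⟨by linarith, by linarith⟩⟩
  rintro (h | h) <;> linarith [h]

theorem Edges.inc1 (ht : 1 < t) (h : Edges t t' K M X Y) (i j : ℕ) (hi : i + 1 < M) (hj : j < M) :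
    Inc t' K (X (i + 1) j) (Y i j) := by
  intro a b hab hb
  obtain ⟨δ, d0, d1, d2, e1, e2⟩ := h (i + 1) j i j a b hi hj (by omega) hj hab hb
  have e : pos t (i + 1) j + 1 - pos t i j = -1 := by unfold pos; push_cast; ring
  rw [e1, e2, e]
  unfold Ed
  refine ⟨Or.inl ⟨by linarith, by linarith⟩, ?_⟩
  rintro (h | h) <;> linarith [h]

theorem Edges.inc3 (h : Edges t t' K M X Y) (i j : ℕ) (hi : i < M) (hj : j + 1 < M) :
    Inc t' K (X i (j + 1)) (Y i j) := by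
  intro a b hab hb
  obtain ⟨δ, d0, d1, d2, e1, e2⟩ := h i (j + 1) i j a b hi hj hi (by omega) hab hb
  have e : pos t i (j + 1) + 1 - pos t i j = t := by unfold pos; push_cast; ring
  rw [e1, e2, e]
  unfold Ed
  refine ⟨Or.inr (by linarith), ?_⟩
  rintro (h | h) <;> linarith [h]

theorem Edges.normal (ht : 1 < t) (ht' : 1 < t') (hK : 6 ≤ K) (h : Edges t t' K M X Y)
    (hH : ∀ i j k l, Hom t' K (X i j) (Y k l)) : Normal t' K M X Y := by
  intro i j hi hj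
  refine gadget (y' := Y (i + 1) j) ht' hK (hH _ _ _ _) (hH _ _ _ _) (hH _ _ _ _) (hH _ _ _ _)
    (h.inc1 ht i j hi (by omega)) (h.dec i j (by omega) (by omega))
    (h.inc3 i j (by omega) hj) (h.dec (i + 1) j hi (by omega)) ?_
  obtain ⟨δ, d0, d1, d2, e1, -⟩ := h i (j + 1) (i + 1) j 2 5 (by omega) hj hi (by omega)
    (by norm_num) (by omega)
  have e : pos t i (j + 1) + 1 - pos t (i + 1) j = t + 2 := by unfold pos; push_cast; ring
  rw [e1, e]
  exact Or.inr (by linarith)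

theorem contra_lt (ht : 1 < t) (ht' : 1 < t') (i j : ℕ) (hK : 2 * (i + j) + 6 ≤ K)
    (hM : i + j + 2 ≤ M) (h : Edges t t' K M X Y) (hH : ∀ i j k l, Hom t' K (X i j) (Y k l))
    (h1 : 1 - 2 * i + (t - 1) * j ≤ -2) (h2 : t' ≤ 1 - 2 * i + (t' - 1) * j) : False := by
  have hn := h.normal ht ht' (by omega) hH
  have a1 := hn.lower i j (by omega) (by omega) 0 (by omega)
  have a2 := ((hn 0 0 (by omega) (by omega)).2.1 (0 + 2 * (i + j)) (0 + 2 * (i + j) + 1)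
    (by omega) (by omega)).1
  obtain ⟨δ, d0, d1, d2, e1, -⟩ := h i j 0 0 0 (0 + 2 * (i + j) + 1) (by omega) (by omega)
    (by omega) (by omega) (by omega) (by omega)
  have a3 := e1.1 (Or.inr (by linarith))
  unfold pos at a3
  push_cast at a3
  rcases a3 with a3 | a3 <;> linarith [a3]

theorem contra_gt (ht : 1 < t) (ht' : 1 < t') (i j : ℕ) (hK : 2 * (i + j) + 6 ≤ K)
    (hM : i + j + 2 ≤ M) (h : Edges t t' K M X Y) (hH : ∀ i j k l, Hom t' K (X i j) (Y k l))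
    (h1 : t + 1 ≤ 1 - 2 * i + (t - 1) * j) (h2 : 1 - 2 * i + (t' - 1) * j ≤ -1) : False := by
  have hn := h.normal ht ht' (by omega) hH
  have a1 := hn.upper i j (by omega) (by omega) 1 (by omega)
  have a2 := ((hn 0 0 (by omega) (by omega)).2.1 0 1 (by omega) (by omega)).2
  obtain ⟨δ, d0, d1, d2, -, e1⟩ := h i j 0 0 0 (1 + 2 * (i + j)) (by omega) (by omega)
    (by omega) (by omega) (by omega) (by omega)
  have a3 := e1.2 (Or.inr (by unfold pos; push_cast; linarith))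
  rcases a3 with a3 | a3 <;> linarith [a3]

theorem exists_rigid (t t' : ℝ) (ht : 1 < t) (K M : ℕ) (hK : 0 < K) (hM : 0 < M) :
    ∃ (V : Type) (_ : Fintype V) (ρ : V → ℝ), ∀ r : V → ℝ,
      (∀ v w, v ≠ w → (Ed t' (r v + r w) ↔ Ed t (ρ v + ρ w))) →
      ∃ X Y : ℕ → ℕ → ℕ → ℝ, Edges t t' K M X Y ∧ ∀ i j k l, Hom t' K (X i j) (Y k l) := by
  classical
  obtain ⟨N, hN⟩ := Pool.Agent.Lib.helper64.ramsey ℕ
    ((Fin M × Fin M) → (Fin M × Fin M) → Fin 3 → Prop × Prop) K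
  have hm : 0 < min 1 (t - 1) := lt_min one_pos (by linarith)
  set ε : ℝ := min 1 (t - 1) / (N + 1) with hε
  have hε0 : 0 < ε := by positivity
  have hεN : ε * (N + 1) = min 1 (t - 1) := by rw [hε]; field_simp
  refine ⟨Fin (N + 1) × Bool × Fin M × Fin M, inferInstance,
    fun v => if v.2.1 then pos t v.2.2.1 v.2.2.2 - ε * (v.1 : ℕ)
      else 1 - pos t v.2.2.1 v.2.2.2 + ε * (v.1 : ℕ), fun r hr => ?_⟩
  let φ : ℕ → Fin (N + 1) := fun a => if h : a < N + 1 then ⟨a, h⟩ else 0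
  let ψ : ℕ → Fin M := fun a => if h : a < M then ⟨a, h⟩ else ⟨0, hM⟩
  let θ : Fin 3 → ℝ := ![-1, 1, t']
  obtain ⟨H, hH, hc, c, hcol⟩ := hN (fun a b p q s =>
    (r (φ a, true, p) + r (φ b, false, q) < θ s, r (φ b, true, p) + r (φ a, false, q) < θ s))
    (Finset.range N) (by simp)
  let e := H.orderEmbOfCardLe hc
  let g : ℕ → ℕ := fun a => if h : a < K then e ⟨a, h⟩ else 0
  have g1 : ∀ a, a < K → g a ∈ H := by
    intro a ha
    simp only [g, ha, dif_pos]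
    exact H.orderEmbOfCardLe_mem hc _
  have g2 : ∀ a b, a < b → b < K → g a < g b := by
    intro a b hab hb
    simp only [g, hb, hab.trans hb, dif_pos]
    exact e.strictMono hab
  have g3 : ∀ a, a < K → ((φ (g a) : ℕ) : ℝ) = g a ∧ g a < N := by
    intro a ha
    have := Finset.mem_range.1 (hH (g1 a ha))
    refine ⟨?_, this⟩
    simp only [φ, Nat.lt_succ_of_lt this, dif_pos]
  have ψ1 : ∀ i, i < M → (ψ i : ℕ) = i := by
    intro i hi
    simp only [ψ, hi, dif_pos]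
  refine ⟨fun i j a => r (φ (g a), true, ψ i, ψ j), fun k l b => r (φ (g b), false, ψ k, ψ l),
    ?_, ?_⟩
  · intro i j k l a b hi hj hk hl hab hb
    have b1 : (g a : ℝ) < g b := by exact_mod_cast g2 a b hab hb
    have b2 : (g b : ℝ) < N := by exact_mod_cast (g3 b hb).2
    have b3 : (0 : ℝ) ≤ g a := Nat.cast_nonneg _
    have b4 : ε * ((g b : ℝ) - g a) < min 1 (t - 1) := by
      rw [← hεN]
      exact mul_lt_mul_of_pos_left (by linarith) hε0
    refine ⟨ε * ((g b : ℝ) - g a), mul_pos hε0 (by linarith), b4.trans_le (min_le_left _ _),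
      b4.trans_le (min_le_right _ _), ?_, ?_⟩
    · rw [hr _ _ (by simp)]
      simp only [if_true, Bool.false_eq_true, if_false, ψ1 _ hi, ψ1 _ hj, ψ1 _ hk, ψ1 _ hl,
        (g3 a (hab.trans hb)).1, (g3 b hb).1]
      ring_nf
    · rw [hr _ _ (by simp)]
      simp only [if_true, Bool.false_eq_true, if_false, ψ1 _ hi, ψ1 _ hj, ψ1 _ hk, ψ1 _ hl,
        (g3 a (hab.trans hb)).1, (g3 b hb).1]
      ring_nf
  · intro i j k l x hx a b a' b' hab hb hab' hb'
    obtain ⟨s, rfl⟩ : ∃ s, x = θ s := by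
      rcases hx with rfl | rfl | rfl
      · exact ⟨0, rfl⟩
      · exact ⟨1, rfl⟩
      · exact ⟨2, rfl⟩
    have c1 := hcol _ (g1 a (hab.trans hb)) _ (g1 b hb) (g2 a b hab hb)
    have c2 := hcol _ (g1 a' (hab'.trans hb')) _ (g1 b' hb') (g2 a' b' hab' hb')
    have c3 := congrFun (congrFun (congrFun (c1.trans c2.symm) (ψ i, ψ j)) (ψ k, ψ l)) s
    simp only [Prod.mk.injEq, eq_iff_iff] at c3
    exact c3

theorem exists_separating (t t' : ℝ) (ht : 1 < t) (ht' : 1 < t') (hne : t ≠ t') :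
    ∃ (V : Type) (_ : Fintype V) (ρ : V → ℝ), ∀ r : V → ℝ,
      ¬ ∀ v w, v ≠ w → (Ed t' (r v + r w) ↔ Ed t (ρ v + ρ w)) := by
  rcases lt_or_gt_of_ne hne with hlt | hlt
  · obtain ⟨j, hj⟩ := exists_nat_ge ((t' + 4) / (t' - t))
    rw [div_le_iff₀ (by linarith)] at hj
    have h0 : 0 ≤ (5 + (t - 1) * j) / 2 := by
      have : 0 ≤ (t - 1) * j := mul_nonneg (by linarith) (Nat.cast_nonneg _)
      linarith
    have f1 := Nat.floor_le h0
    have f2 := Nat.lt_floor_add_one ((5 + (t - 1) * j) / 2)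
    set i := ⌊(5 + (t - 1) * j) / 2⌋₊
    obtain ⟨V, _, ρ, h⟩ := exists_rigid t t' ht (2 * (i + j) + 6) (i + j + 2) (by omega) (by omega)
    refine ⟨V, inferInstance, ρ, fun r hr => ?_⟩
    obtain ⟨X, Y, h1, h2⟩ := h r hr
    exact contra_lt ht ht' i j le_rfl le_rfl h1 h2 (by linarith) (by nlinarith)
  · obtain ⟨j, hj⟩ := exists_nat_ge ((t + 4) / (t - t'))
    rw [div_le_iff₀ (by linarith)] at hj
    have h0 : 0 ≤ ((t - 1) * j - t) / 2 := by
      have : 0 ≤ (t' - 1) * j := mul_nonneg (by linarith) (Nat.cast_nonneg _)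
      nlinarith
    have f1 := Nat.floor_le h0
    have f2 := Nat.lt_floor_add_one (((t - 1) * j - t) / 2)
    set i := ⌊((t - 1) * j - t) / 2⌋₊
    obtain ⟨V, _, ρ, h⟩ := exists_rigid t t' ht (2 * (i + j) + 6) (i + j + 2) (by omega) (by omega)
    refine ⟨V, inferInstance, ρ, fun r hr => ?_⟩
    obtain ⟨X, Y, h1, h2⟩ := h r hr
    exact contra_gt ht ht' i j le_rfl le_rfl h1 h2 (by linarith) (by nlinarith)

end Pool.Agent.Lib.MP_86beeb_co
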